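import Mathlib
import Pool.Agent.Lib.MP_4b24a5_an.Defs
import Pool.Agent.Lib.MP_4b24a5_an.Fin

/-!
# MP_4b24a5_an: a lower threshold for differential monomials of analytic functions
-/

set_option autoImplicit false

noncomputable section

namespace Pool.Agent.Results.MP_4b24a5_an.AnalyticThreshold

open Complex Metric Pool.Agent.MP4b24a5

/-- Let `f` be analytic and non-constant in the unit disc, `α(f) < ∞`, and let
`Ψ = f ^ m₀ * f' ^ m₁ * ... * (f⁽ᵏ⁾) ^ mₖ` with `m₀ ≥ 2`, of degree `n` and weight `Γ`. If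
`α(f) > 1 / (m₀ - 1) + Γ / n`, then `Ψ` takes every value `w ≠ 0` at infinitely many points of the
unit disc. -/
theorem result (k : ℕ) (m : Fin (k + 1) → ℕ) (hm : 2 ≤ m 0) (f : ℂ → ℂ)
    (hf : AnalyticOnNhd ℂ f (ball 0 1)) (hc : ¬ ∃ c, ∀ z ∈ ball (0 : ℂ) 1, f z = c)
    (ha : alph f < ⊤)
    (h : ((1 / ((m 0 : ℝ) - 1) + (wgt m : ℝ) / deg m : ℝ) : EReal) < alph f)
    (w : ℂ) (hw : w ≠ 0) :
    {z | z ∈ ball (0 : ℂ) 1 ∧ Psi m f z = w}.Infinite :=
  main_analytic m f hf hc ha hm h w hw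

end Pool.Agent.Results.MP_4b24a5_an.AnalyticThreshold
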