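import Mathlib
import Pool.Agent.Lib.MP_4b24a5_an.Defs
import Pool.Agent.Lib.MP_4b24a5_an_M1.Main

/-!
# MP_4b24a5_an: differential monomials with a simple factor `f`
-/

set_option autoImplicit false

noncomputable section

namespace Pool.Agent.Results.MP_4b24a5_an.LinearThreshold

open Complex Metric Pool.Agent.MP4b24a5

/-- `f` is not constant in the unit disc -/
def NonConst (f : ℂ → ℂ) : Prop := ¬ ∃ c, ∀ z ∈ ball (0 : ℂ) 1, f z = c

/-- property (V) for analytic functions: `Ψ_f` takes every value `w ≠ 0` at infinitely many points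
of the unit disc -/
def PropV {k : ℕ} (m : Fin (k + 1) → ℕ) (f : ℂ → ℂ) : Prop :=
  ∀ w : ℂ, w ≠ 0 → {z | z ∈ ball (0 : ℂ) 1 ∧ Psi m f z = w}.Infinite

/-- the set `S_A`: the `a ≥ 0` such that every non-constant analytic `f` with `α(f) = a` has
property (V) -/
def SA {k : ℕ} (m : Fin (k + 1) → ℕ) : Set ℝ :=
  {a | 0 ≤ a ∧ ∀ f : ℂ → ℂ, AnalyticOnNhd ℂ f (ball 0 1) → NonConst f →
    alph f = (a : EReal) → PropV m f}

/-- Let `m 0 = 1`, `m 0 + ... + m k ≥ 2` and `m j ≠ 1` for all `j ≥ 2` (no condition on `m 1`).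
Then there is a constant `C` such that `S_A` contains `(C, ∞)`. -/
theorem result (k : ℕ) (m : Fin (k + 1) → ℕ) (h0 : m 0 = 1) (hd : 2 ≤ ∑ j, m j)
    (h2 : ∀ j : Fin (k + 1), 2 ≤ (j : ℕ) → m j ≠ 1) : ∃ C : ℝ, Set.Ioi C ⊆ SA m := by
  obtain ⟨C, hC, h⟩ := M1.threshold h0 hd h2
  refine ⟨C, fun a ha => ⟨hC.trans (le_of_lt ha), fun f hf hc hfa w hw => ?_⟩⟩
  refine h f hf hc ?_ ?_ w hw
  · rw [hfa]; exact EReal.coe_lt_top a
  · rw [hfa]; exact EReal.coe_lt_coe_iff.2 ha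

end Pool.Agent.Results.MP_4b24a5_an.LinearThreshold
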