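import Mathlib
import Pool.Agent.Lib.MP_4b24a5_an.Defs
import Pool.Agent.Lib.MP_4b24a5_an_LB.AlB

/-!
# MP_4b24a5_an: lower bounds for the thresholds of the monomials `f ^ m * f'`
-/

set_option autoImplicit false

noncomputable section

namespace Pool.Agent.Results.MP_4b24a5_an.LowerBound

open Complex Metric Set Pool.Agent.MP4b24a5

/-- `f` is not constant in the unit disc -/
def NonConst (f : ℂ → ℂ) : Prop := ¬ ∃ c, ∀ z ∈ ball (0 : ℂ) 1, f z = c

/-- property (V): `Ψ_f` takes every value `w ≠ 0` at infinitely many points of the unit disc -/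
def PropV {k : ℕ} (m : Fin (k + 1) → ℕ) (f : ℂ → ℂ) : Prop :=
  ∀ w : ℂ, w ≠ 0 → {z | z ∈ ball (0 : ℂ) 1 ∧ AnalyticAt ℂ f z ∧ Psi m f z = w}.Infinite

/-- the set `S_A`: the `a ≥ 0` such that every non-constant analytic `f` with `α(f) = a` has
property (V) -/
def SA {k : ℕ} (m : Fin (k + 1) → ℕ) : Set ℝ :=
  {a | 0 ≤ a ∧ ∀ f : ℂ → ℂ, AnalyticOnNhd ℂ f (ball 0 1) → NonConst f →
    alph f = (a : EReal) → PropV m f}

/-- the set `S_M`: the `a ≥ 0` such that every non-constant meromorphic `f` with `α(f) = a` has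
property (V) -/
def SM {k : ℕ} (m : Fin (k + 1) → ℕ) : Set ℝ :=
  {a | 0 ≤ a ∧ ∀ f : ℂ → ℂ, MeromorphicNFOn f (ball 0 1) → NonConst f →
    alph f = (a : EReal) → PropV m f}

/-- Let `Ψ_f = f ^ m₀ * f'` (`m 1 = 1` and `m i = 0` for `i ≥ 2`). Then `S_A` and `S_M` contain no
`a < 1 / (m₀ + 1)`: for every such `a ≥ 0` there is a non-constant analytic function in the unit
disc with `α(f) = a` without property (V). -/
theorem result (k : ℕ) (m : Fin (k + 1) → ℕ) (j : Fin (k + 1)) (hj : (j : ℕ) = 1) (hm1 : m j = 1)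
    (hm : ∀ i : Fin (k + 1), 2 ≤ (i : ℕ) → m i = 0) :
    SA m ⊆ Ici (1 / ((m 0 : ℝ) + 1)) ∧ SM m ⊆ Ici (1 / ((m 0 : ℝ) + 1)) := by
  have hpsi : ∀ (f : ℂ → ℂ) (z : ℂ), Psi m f z = f z ^ m 0 * deriv f z := by
    intro f z
    have h0j : (0 : Fin (k + 1)) ≠ j := by
      intro h
      rw [← h] at hj
      simp at hj
    unfold Psi
    rw [← Finset.prod_subset (Finset.subset_univ {0, j})]
    · rw [Finset.prod_pair h0j, hm1, hj, Fin.val_zero, iteratedDeriv_zero, iteratedDeriv_one,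
        pow_one]
    · intro i _ hi
      have h2 : 2 ≤ (i : ℕ) := by
        by_contra hc
        apply hi
        rw [Finset.mem_insert, Finset.mem_singleton]
        have h3 : (i : ℕ) = 0 ∨ (i : ℕ) = 1 := by omega
        rcases h3 with h3 | h3
        · exact Or.inl (Fin.ext h3)
        · exact Or.inr (Fin.ext (h3.trans hj.symm))
      rw [hm i h2, pow_zero]
  have key : ∀ a : ℝ, 0 ≤ a → a < 1 / ((m 0 : ℝ) + 1) → ∃ f : ℂ → ℂ,
      AnalyticOnNhd ℂ f (ball 0 1) ∧ NonConst f ∧ alph f = (a : EReal) ∧ ¬ PropV m f := by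
    intro a ha ha1
    obtain ⟨f, w, hf, hc, hfa, hw, hb⟩ := LB.exists_all (m 0) ha ha1
    refine ⟨f, hf, hc, hfa, fun hV => ?_⟩
    obtain ⟨z, hz, -, hz2⟩ := (hV w hw).nonempty
    rw [hpsi] at hz2
    exact hb z hz hz2
  constructor
  · rintro a ⟨ha, h⟩
    by_contra hc
    rw [mem_Ici, not_le] at hc
    obtain ⟨f, hf, hn, hfa, hV⟩ := key a ha hc
    exact hV (h f hf hn hfa)
  · rintro a ⟨ha, h⟩
    by_contra hc
    rw [mem_Ici, not_le] at hc
    obtain ⟨f, hf, hn, hfa, hV⟩ := key a ha hc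
    exact hV (h f (fun z hz => (hf z hz).meromorphicNFAt) hn hfa)

end Pool.Agent.Results.MP_4b24a5_an.LowerBound
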