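import Mathlib
import Pool.Agent.Lib.MP_4b24a5_an.Defs
import Pool.Agent.Lib.MP_4b24a5_an_T3.Fin

/-!
# MP_4b24a5_an: monomials in one derivative have no admissible order
-/

set_option autoImplicit false

noncomputable section

namespace Pool.Agent.Results.MP_4b24a5_an.SingleDerivative

open Complex Metric Pool.Agent.MP4b24a5

/-- `f` is not constant in the unit disc -/
def NonConst (f : ℂ → ℂ) : Prop := ¬ ∃ c, ∀ z ∈ ball (0 : ℂ) 1, f z = c

/-- property (V): `Ψ_f` takes every value `w ≠ 0` at infinitely many points of the unit disc -/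
def PropV {k : ℕ} (m : Fin (k + 1) → ℕ) (f : ℂ → ℂ) : Prop :=
  ∀ w : ℂ, w ≠ 0 → {z | z ∈ ball (0 : ℂ) 1 ∧ AnalyticAt ℂ f z ∧ Psi m f z = w}.Infinite

/-- the set `S_A`: the `a ≥ 0` such that every non-constant analytic `f` with `α(f) = a` has
property (V) -/
def SA {k : ℕ} (m : Fin (k + 1) → ℕ) : Set ℝ :=
  {a | 0 ≤ a ∧ ∀ f : ℂ → ℂ, AnalyticOnNhd ℂ f (ball 0 1) → NonConst f →
    alph f = (a : EReal) → PropV m f}

/-- the set `S_M`: the `a ≥ 0` such that every non-constant meromorphic `f` with `α(f) = a` has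
property (V) -/
def SM {k : ℕ} (m : Fin (k + 1) → ℕ) : Set ℝ :=
  {a | 0 ≤ a ∧ ∀ f : ℂ → ℂ, MeromorphicNFOn f (ball 0 1) → NonConst f →
    alph f = (a : EReal) → PropV m f}

/-- Let `Ψ_f = (f⁽ʲ⁾) ^ n` with `1 ≤ j ≤ k`. Then `S_A` and `S_M` are empty: for every `a ≥ 0`
there is a non-constant analytic function in the unit disc with `α(f) = a` without
property (V). -/
theorem result (k : ℕ) (m : Fin (k + 1) → ℕ) (j : Fin (k + 1)) (hj : j ≠ 0)
    (hm : ∀ i, i ≠ j → m i = 0) : SA m = ∅ ∧ SM m = ∅ := by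
  have hpsi : ∀ (f : ℂ → ℂ) (z : ℂ), Psi m f z = iteratedDeriv (j : ℕ) f z ^ m j := by
    intro f z
    unfold Psi
    rw [Finset.prod_eq_single j]
    · intro i _ hi
      rw [hm i hi, pow_zero]
    · intro h
      exact absurd (Finset.mem_univ j) h
  have hj' : (j : ℕ) ≠ 0 := fun h => hj (Fin.ext h)
  have key : ∀ a : ℝ, 0 ≤ a → ∃ f : ℂ → ℂ, AnalyticOnNhd ℂ f (ball 0 1) ∧ NonConst f ∧
      alph f = (a : EReal) ∧ ¬ PropV m f := by
    intro a ha
    obtain ⟨f, hf, hc, hfa, δ, hδ, hb⟩ := T3.exists_all hj' ha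
    refine ⟨f, hf, hc, hfa, fun hV => ?_⟩
    have hδ' : 0 < δ ^ m j := by positivity
    have hw : ((δ ^ m j / 2 : ℝ) : ℂ) ≠ 0 := by
      exact_mod_cast (half_pos hδ').ne'
    obtain ⟨z, hz, -, hz2⟩ := (hV _ hw).nonempty
    have h1 : δ ^ m j ≤ ‖Psi m f z‖ := by
      rw [hpsi, norm_pow]
      exact pow_le_pow_left₀ hδ.le (hb z hz) _
    rw [hz2, Complex.norm_real, Real.norm_of_nonneg (half_pos hδ').le] at h1
    linarith
  constructor
  · rw [Set.eq_empty_iff_forall_notMem]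
    rintro a ⟨ha, h⟩
    obtain ⟨f, hf, hc, hfa, hV⟩ := key a ha
    exact hV (h f hf hc hfa)
  · rw [Set.eq_empty_iff_forall_notMem]
    rintro a ⟨ha, h⟩
    obtain ⟨f, hf, hc, hfa, hV⟩ := key a ha
    exact hV (h f (fun z hz => (hf z hz).meromorphicNFAt) hc hfa)

end Pool.Agent.Results.MP_4b24a5_an.SingleDerivative
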